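import Pool.Agent.LPW.StmtsC

/-!
# LPW, block C, row BPB: the theorem of Bombieri and Pila with exponent `1 / 2`
-/

set_option autoImplicit false

open Polynomial

namespace Pool.Agent.LPW.H32

open MvPolynomial in
/-- the degree of a partial derivative -/
theorem deg_pd {R : Type} [CommRing R] (G : MvPolynomial (Fin 2) R) (h : 1 ≤ G.totalDegree) :
    (pderiv 1 G).totalDegree < G.totalDegree := by
  unfold MvPolynomial.totalDegree
  rw [Finset.sup_lt_iff (by exact h)]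
  intro m hm
  rw [MvPolynomial.mem_support_iff, coeff_pderiv] at hm
  have h1 : m + Finsupp.single 1 1 ∈ G.support := by
    rw [MvPolynomial.mem_support_iff]
    intro h0
    rw [h0, zero_mul] at hm
    exact hm rfl
  have h2 := le_totalDegree h1
  rw [Finsupp.sum_add_index' (fun _ => rfl) (fun _ _ _ => rfl),
    Finsupp.sum_single_index rfl] at h2
  exact h2

open MvPolynomial in
/-- coefficients of a partial derivative -/
theorem coeff_pd (G : MvPolynomial (Fin 2) ℤ) (d : ℕ) (K : ℤ) (hd : G.totalDegree ≤ d)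
    (hK : ∀ s, |coeff s G| ≤ K) (m : Fin 2 →₀ ℕ) : |coeff m (pderiv 1 G)| ≤ K * d := by
  have hK0 : 0 ≤ K := le_trans (abs_nonneg _) (hK 0)
  rw [coeff_pderiv, abs_mul]
  by_cases h0 : coeff (m + Finsupp.single 1 1) G = 0
  · rw [h0, abs_zero, zero_mul]
    positivity
  · have h1 : m + Finsupp.single 1 1 ∈ G.support := MvPolynomial.mem_support_iff.2 h0
    have h2 : (m 1 + 1 : ℕ) ≤ d := by
      have h3 := le_trans (le_degreeOf_of_mem_support 1 h1) (degreeOf_le_totalDegree G 1)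
      rw [Finsupp.add_apply, Finsupp.single_eq_same] at h3
      omega
    have h4 : |((m 1 : ℤ) + 1)| ≤ d := by
      rw [abs_of_nonneg (by positivity)]
      exact_mod_cast h2
    exact mul_le_mul (hK _) h4 (abs_nonneg _) hK0

open MvPolynomial in
/-- values of polynomials with bounded coefficients -/
theorem evb (G : MvPolynomial (Fin 2) ℤ) (d N : ℕ) (K : ℤ) (hd : G.totalDegree ≤ d) (hN : 1 ≤ N)
    (hK : ∀ s, |coeff s G| ≤ K) (P : Fin 2 → ℤ) (hP : ∀ i, |P i| ≤ N) :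
    |eval P G| ≤ ((d + 1) ^ 2 : ℕ) * (K * (N : ℤ) ^ d) := by
  have hK0 : 0 ≤ K := le_trans (abs_nonneg _) (hK 0)
  rw [eval_eq']
  have hcard : G.support.card ≤ (d + 1) ^ 2 := by
    have h1 := Finset.card_le_card_of_injOn (s := G.support)
      (t := Finset.range (d + 1) ×ˢ Finset.range (d + 1)) (fun m => (m 0, m 1)) (by
        intro m hm
        have h2 : ∀ i, m i ≤ d := fun i =>
          le_trans (le_trans (le_degreeOf_of_mem_support i hm) (degreeOf_le_totalDegree G i)) hd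
        rw [Finset.mem_coe, Finset.mem_product, Finset.mem_range, Finset.mem_range]
        exact ⟨Nat.lt_succ_of_le (h2 0), Nat.lt_succ_of_le (h2 1)⟩) (by
        intro m _ m' _ h
        ext i
        fin_cases i
        · exact congrArg Prod.fst h
        · exact congrArg Prod.snd h)
    rw [Finset.card_product, Finset.card_range] at h1
    rw [pow_two]
    exact h1
  calc |∑ m ∈ G.support, coeff m G * ∏ i, P i ^ m i|
      ≤ ∑ m ∈ G.support, |coeff m G * ∏ i, P i ^ m i| := Finset.abs_sum_le_sum_abs _ _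
    _ ≤ ∑ _m ∈ G.support, K * (N : ℤ) ^ d := by
        refine Finset.sum_le_sum fun m hm => ?_
        rw [abs_mul, Finset.abs_prod]
        refine mul_le_mul (hK m) ?_ (Finset.prod_nonneg fun _ _ => abs_nonneg _) hK0
        have h1 : m 0 + m 1 ≤ d := by
          have h2 := le_trans (le_totalDegree hm) hd
          rw [Finsupp.sum_fintype _ _ (fun _ => rfl), Fin.sum_univ_two] at h2
          exact h2
        have hN' : (1 : ℤ) ≤ N := by exact_mod_cast hN
        calc ∏ i, |P i ^ m i| ≤ ∏ i, (N : ℤ) ^ m i := by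
              refine Finset.prod_le_prod (fun _ _ => abs_nonneg _) fun i _ => ?_
              rw [abs_pow]
              exact pow_le_pow_left₀ (abs_nonneg _) (hP i) _
          _ = (N : ℤ) ^ (m 0 + m 1) := by rw [Fin.prod_univ_two, pow_add]
          _ ≤ (N : ℤ) ^ d := pow_le_pow_right₀ hN' h1
    _ = G.support.card * (K * (N : ℤ) ^ d) := by rw [Finset.sum_const, nsmul_eq_mul]
    _ ≤ ((d + 1) ^ 2 : ℕ) * (K * (N : ℤ) ^ d) := by
        refine mul_le_mul_of_nonneg_right ?_ (by positivity)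
        exact_mod_cast hcard

open MvPolynomial in
/-- evaluation at integral points -/
theorem ev_map (G : MvPolynomial (Fin 2) ℤ) (P : Fin 2 → ℤ) :
    eval (fun i => (P i : ℚ)) (map (Int.castRingHom ℚ) G) = (eval P G : ℤ) := by
  induction G using MvPolynomial.induction_on with
  | C a => simp
  | add p q hp hq => rw [map_add, map_add, map_add, hp, hq]; push_cast; rfl
  | mul_X p i hp => rw [map_mul, map_mul, map_mul, hp, MvPolynomial.map_X, MvPolynomial.eval_X, MvPolynomial.eval_X]; push_cast; rfl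

open MvPolynomial in
/-- the derivative of the restriction to a vertical line -/
theorem der_line (G : MvPolynomial (Fin 2) ℚ) (p : ℚ) :
    Polynomial.derivative (aeval (![Polynomial.C p, Polynomial.X] : Fin 2 → ℚ[X]) G) =
      aeval (![Polynomial.C p, Polynomial.X] : Fin 2 → ℚ[X]) (pderiv 1 G) := by
  induction G using MvPolynomial.induction_on with
  | C a => simp
  | add f g hf hg => rw [map_add, map_add, map_add, map_add, hf, hg]
  | mul_X f i hf =>
    rw [map_mul, Polynomial.derivative_mul, hf, pderiv_mul, map_add, map_mul, map_mul, MvPolynomial.aeval_X]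
    fin_cases i
    · rw [pderiv_X_of_ne (by decide)]
      simp
    · simp

open MvPolynomial in
/-- the values of the restriction to a vertical line -/
theorem ev_line (G : MvPolynomial (Fin 2) ℚ) (p y : ℚ) :
    Polynomial.eval y (MvPolynomial.aeval (![Polynomial.C p, Polynomial.X] : Fin 2 → ℚ[X]) G) =
      MvPolynomial.eval ![p, y] G := by
  induction G using MvPolynomial.induction_on with
  | C a => simp
  | add f g hf hg => rw [map_add, Polynomial.eval_add, hf, hg, map_add]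
  | mul_X f i hf =>
    rw [map_mul, Polynomial.eval_mul, hf, map_mul, MvPolynomial.aeval_X, MvPolynomial.eval_X]
    fin_cases i
    · simp
    · simp

/-- an irreducible polynomial of degree at least `2` without `X₁` has no zero -/
theorem no_zero (hBez : BezStmt) (G : MvPolynomial (Fin 2) ℚ) (hG : Irreducible G)
    (h2 : 2 ≤ G.totalDegree) (h0 : MvPolynomial.pderiv 1 G = 0) (P : Fin 2 → ℚ)
    (hP : MvPolynomial.eval P G = 0) : False := by
  obtain ⟨B, hB⟩ := hBez G.totalDegree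
  let F : MvPolynomial (Fin 2) ℚ := MvPolynomial.X 0 - MvPolynomial.C (P 0)
  have hFd : F.totalDegree ≤ 1 := by
    refine le_trans (MvPolynomial.totalDegree_sub _ _) ?_
    rw [MvPolynomial.totalDegree_X, MvPolynomial.totalDegree_C]
    simp
  have hF0 : F ≠ 0 := by
    intro h
    have h1 := congrArg (MvPolynomial.eval (fun _ => P 0 + 1)) h
    simp [F] at h1
  have hrel : IsRelPrime G F := by
    rw [hG.isRelPrime_iff_not_dvd]
    intro h
    have := MvPolynomial.totalDegree_le_of_dvd_of_isDomain h hF0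
    omega
  have h1 := hB G F le_rfl (by omega) hrel
  have h3 : ∀ y : ℚ, MvPolynomial.eval ![P 0, y] G = 0 := by
    have h4 : Polynomial.derivative
        (MvPolynomial.aeval (![Polynomial.C (P 0), Polynomial.X] : Fin 2 → ℚ[X]) G) = 0 := by
      rw [der_line, h0, map_zero]
    have h5 := Polynomial.eq_C_of_derivative_eq_zero h4
    have h6 : ∀ y : ℚ, MvPolynomial.eval ![P 0, y] G = Polynomial.coeff
        (MvPolynomial.aeval (![Polynomial.C (P 0), Polynomial.X] : Fin 2 → ℚ[X]) G) 0 := by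
      intro y
      rw [← ev_line, h5, Polynomial.eval_C, Polynomial.coeff_C_zero]
    intro y
    rw [h6, ← h6 (P 1)]
    have h7 : (![P 0, P 1] : Fin 2 → ℚ) = P := by
      funext i
      fin_cases i <;> rfl
    rw [h7, hP]
  have h4 : Set.range (fun y : ℚ => (![P 0, y] : Fin 2 → ℚ)) ⊆
      {Q : Fin 2 → ℚ | MvPolynomial.eval Q G = 0 ∧ MvPolynomial.eval Q F = 0} := by
    rintro _ ⟨y, rfl⟩
    exact ⟨h3 y, by simp [F]⟩
  have h5 : (Set.range (fun y : ℚ => (![P 0, y] : Fin 2 → ℚ))).Infinite := by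
    refine Set.infinite_range_of_injective fun y y' h => ?_
    have := congrFun h 1
    simpa using this
  have h6 := le_trans (Set.encard_le_encard h4) h1
  rw [h5.encard_eq] at h6
  exact absurd h6 (by simp)

/-- the degree of associated polynomials -/
theorem deg_ass {G G' : MvPolynomial (Fin 2) ℚ} (h : Associated G' G) (h0 : G ≠ 0) :
    G'.totalDegree = G.totalDegree := by
  have h1 : G' ≠ 0 := fun h2 => h0 ((h.eq_zero_iff).1 h2)
  exact le_antisymm (MvPolynomial.totalDegree_le_of_dvd_of_isDomain h.dvd h0)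
    (MvPolynomial.totalDegree_le_of_dvd_of_isDomain h.symm.dvd h1)

theorem zero_ass {G G' : MvPolynomial (Fin 2) ℚ} (h : Associated G' G) (P : Fin 2 → ℚ) :
    MvPolynomial.eval P G = 0 ↔ MvPolynomial.eval P G' = 0 := by
  constructor
  · intro h1
    obtain ⟨c, hc⟩ := h.symm.dvd
    rw [hc, map_mul, h1, zero_mul]
  · intro h1
    obtain ⟨c, hc⟩ := h.dvd
    rw [hc, map_mul, h1, zero_mul]

theorem deg_map (G : MvPolynomial (Fin 2) ℤ) :
    (MvPolynomial.map (Int.castRingHom ℚ) G).totalDegree = G.totalDegree := by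
  unfold MvPolynomial.totalDegree
  rw [MvPolynomial.support_map_of_injective _ (RingHom.injective_int (Int.castRingHom ℚ))]

/-- one of many primes does not divide a small number -/
theorem ex_prime (s : Finset ℕ) (h C N c B₀ : ℕ) (hh : h = 2 * c + 1) (hs : s.card = h)
    (hsl : ∀ l ∈ s, l.Prime ∧ B₀ < l) (hB1 : C + 1 ≤ B₀) (hB2 : N ≤ B₀ ^ 2) (hN : 1 ≤ N) (z : ℤ)
    (hz : z ≠ 0) (hzb : |z| ≤ C * (N : ℤ) ^ c) : ∃ l ∈ s, ¬ (l : ℤ) ∣ z := by
  by_contra hcon
  push Not at hcon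
  have h1 : ∏ l ∈ s, l ∣ z.natAbs := by
    refine Finset.prod_primes_dvd _ (fun l hl => (hsl l hl).1.prime) fun l hl => ?_
    exact Int.natCast_dvd.1 (hcon l hl)
  have h2 : ∏ l ∈ s, l ≤ z.natAbs := Nat.le_of_dvd (Int.natAbs_pos.2 hz) h1
  have h3 : B₀ ^ h ≤ ∏ l ∈ s, l := by
    rw [← hs, ← Finset.prod_const]
    exact Finset.prod_le_prod' fun l hl => (hsl l hl).2.le
  have h4 : z.natAbs ≤ C * N ^ c := by
    rw [Int.abs_eq_natAbs] at hzb
    exact_mod_cast hzb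
  have h5 : N ^ c * (C + 1) ≤ B₀ ^ h := by
    rw [hh, pow_succ, pow_mul]
    exact Nat.mul_le_mul (Nat.pow_le_pow_left hB2 c) hB1
  have h6 : 0 < N ^ c := Nat.pow_pos hN
  nlinarith

/-- the numerical hypothesis of BPC -/
theorem num (L S e₁ F K N l B₀ : ℕ) (ε : ℝ) (hL : L ≤ F) (hFK : F ≤ K) (hK : 1 ≤ K)
    (hN : 1 ≤ N) (he : 0 < e₁) (hS : (S : ℝ) ≤ (1 / 2 + ε) * e₁)
    (hB : (K : ℝ) * (N : ℝ) ^ (1 / 2 + ε) ≤ B₀) (hl : B₀ < l) : L * N ^ S < l ^ e₁ := by
  have hN' : (1 : ℝ) ≤ N := by exact_mod_cast hN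
  have hK' : (1 : ℝ) ≤ K := by exact_mod_cast hK
  have h1 : (N : ℝ) ^ S ≤ ((N : ℝ) ^ (1 / 2 + ε)) ^ e₁ := by
    rw [← Real.rpow_natCast, ← Real.rpow_natCast, ← Real.rpow_mul (by positivity)]
    exact Real.rpow_le_rpow_of_exponent_le hN' hS
  have h2 : (K : ℝ) ≤ (K : ℝ) ^ e₁ := le_self_pow₀ hK' he.ne'
  have h3 : ((L * N ^ S : ℕ) : ℝ) ≤ (B₀ : ℝ) ^ e₁ := by
    push_cast
    calc (L : ℝ) * (N : ℝ) ^ S ≤ (K : ℝ) ^ e₁ * ((N : ℝ) ^ (1 / 2 + ε)) ^ e₁ := by
          refine mul_le_mul (le_trans ?_ h2) h1 (by positivity) (by positivity)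
          exact_mod_cast le_trans hL hFK
      _ = ((K : ℝ) * (N : ℝ) ^ (1 / 2 + ε)) ^ e₁ := (mul_pow _ _ _).symm
      _ ≤ (B₀ : ℝ) ^ e₁ := pow_le_pow_left₀ (by positivity) hB _
  have h4 : L * N ^ S ≤ B₀ ^ e₁ := by exact_mod_cast h3
  exact lt_of_le_of_lt h4 (Nat.pow_lt_pow_left hl he.ne')

/-- BPB -/
theorem bpb : BpbStmt := by
  intro hBez hNme hCfb hPrm hBpc d ε hε
  obtain ⟨D, hdD, hD⟩ := hNme d ε hε
  obtain ⟨B₁, hB₁⟩ := hBpc D
  obtain ⟨B₂, hB₂⟩ := hCfb d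
  obtain ⟨B₃, hB₃⟩ := hBez d
  obtain ⟨F, hF⟩ : ∃ F : ℕ, ∀ e ≤ d, (Le e D).factorial ≤ F :=
    ⟨∑ e ∈ Finset.range (d + 1), (Le e D).factorial, fun e he =>
      Finset.single_le_sum (f := fun e => (Le e D).factorial) (fun _ _ => Nat.zero_le _)
        (Finset.mem_range.2 (Nat.lt_succ_of_le he))⟩
  obtain ⟨C₁, hC₁⟩ : ∃ C₁ : ℕ, C₁ = (d + 1) ^ 2 * (B₂ * d) := ⟨_, rfl⟩
  obtain ⟨c₁, hc₁⟩ : ∃ c₁ : ℕ, c₁ = B₂ + d := ⟨_, rfl⟩
  obtain ⟨h, hh⟩ : ∃ h : ℕ, h = 2 * c₁ + 1 := ⟨_, rfl⟩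
  obtain ⟨K, hK⟩ : ∃ K : ℕ, K = C₁ + F + 1 := ⟨_, rfl⟩
  refine ⟨B₂ + B₃ + h * (d * (2 ^ h) * B₁) * (K + 1), ?_⟩
  intro G hG h2 hd N hN
  obtain ⟨x, hx⟩ : ∃ x : ℝ, x = (N : ℝ) ^ (1 / 2 + ε) := ⟨_, rfl⟩
  have hN' : (1 : ℝ) ≤ N := by exact_mod_cast hN
  have hx1 : 1 ≤ x := by rw [hx]; exact Real.one_le_rpow hN' (by linarith)
  rw [← hx]
  obtain ⟨T, hT⟩ : ∃ T, T = {P : Fin 2 → ℤ | (∀ i, |P i| ≤ N) ∧
    MvPolynomial.eval (fun i => (P i : ℚ)) G = 0} := ⟨_, rfl⟩
  rw [← hT]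
  have hfin : ∀ n : ℕ, T.encard ≤ (n : ℕ∞) → T.ncard ≤ n := fun n hn =>
    ENat.toNat_le_of_le_natCast hn
  have hpos : (0 : ℝ) ≤ h * (d * (2 ^ h) * B₁) * (K + 1) := by positivity
  by_cases hc : (B₂ : ℕ∞) < T.encard
  swap
  · have h3 := hfin B₂ (not_lt.1 hc)
    have h4 : (T.ncard : ℝ) ≤ B₂ := by exact_mod_cast h3
    have h5 : (0 : ℝ) ≤ B₃ := Nat.cast_nonneg _
    have h6 : (0 : ℝ) ≤ B₂ := Nat.cast_nonneg _
    calc (T.ncard : ℝ) ≤ B₂ * 1 := by rw [mul_one]; exact h4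
      _ ≤ (B₂ + B₃ + h * (d * (2 ^ h) * B₁) * (K + 1)) * x :=
        mul_le_mul (by linarith) hx1 zero_le_one (by positivity)
  obtain ⟨G', hass, hco⟩ := hB₂ G hG hd N hN (by rw [← hT]; exact hc)
  obtain ⟨GQ, hGQ⟩ : ∃ GQ, GQ = MvPolynomial.map (Int.castRingHom ℚ) G' := ⟨_, rfl⟩
  rw [← hGQ] at hass
  have hirr : Irreducible GQ := (hass.irreducible_iff).2 hG
  have hdeg : GQ.totalDegree = G.totalDegree := deg_ass hass hG.ne_zero
  have hdeg' : G'.totalDegree = G.totalDegree := by rw [← deg_map, ← hGQ, hdeg]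
  have hev : ∀ P : Fin 2 → ℤ, MvPolynomial.eval (fun i => (P i : ℚ)) G = 0 ↔
      MvPolynomial.eval P G' = 0 := by
    intro P
    rw [zero_ass hass, hGQ, ev_map, Int.cast_eq_zero]
  obtain ⟨H, hH⟩ : ∃ H, H = MvPolynomial.pderiv 1 G' := ⟨_, rfl⟩
  have hHQ : MvPolynomial.map (Int.castRingHom ℚ) H = MvPolynomial.pderiv 1 GQ := by
    rw [hH, hGQ, MvPolynomial.pderiv_map]
  have hHQ0 : MvPolynomial.pderiv 1 GQ ≠ 0 := by
    intro h0
    have hne : T.Nonempty := by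
      rw [← Set.encard_pos]
      exact lt_of_le_of_lt zero_le hc
    obtain ⟨P, hP⟩ := hne
    rw [hT] at hP
    exact no_zero hBez GQ hirr (by rw [hdeg]; exact h2) h0 _ ((zero_ass hass _).1 hP.2)
  have hHd := deg_pd GQ (by rw [hdeg]; omega)
  have hrel : IsRelPrime GQ (MvPolynomial.pderiv 1 GQ) := by
    rw [hirr.isRelPrime_iff_not_dvd]
    intro h3
    have := MvPolynomial.totalDegree_le_of_dvd_of_isDomain h3 hHQ0
    omega
  obtain ⟨T₀, hT₀⟩ : ∃ T₀, T₀ = {P : Fin 2 → ℤ | MvPolynomial.eval P G' = 0 ∧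
    MvPolynomial.eval P H = 0} := ⟨_, rfl⟩
  have hT₀c : T₀.encard ≤ B₃ := by
    have h3 := hB₃ GQ (MvPolynomial.pderiv 1 GQ) (by rw [hdeg]; exact hd)
      (by rw [hdeg] at hHd; omega) hrel
    refine le_trans ?_ h3
    have h4 : Function.Injective (fun (P : Fin 2 → ℤ) (i : Fin 2) => (P i : ℚ)) := by
      intro P P' h5
      funext i
      exact Int.cast_injective (congrFun h5 i)
    rw [← h4.encard_image]
    refine Set.encard_le_encard ?_
    rintro _ ⟨P, hP, rfl⟩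
    rw [hT₀] at hP
    refine ⟨?_, ?_⟩
    · change MvPolynomial.eval (fun i => (P i : ℚ)) GQ = 0
      rw [hGQ, ev_map, hP.1, Int.cast_zero]
    · change MvPolynomial.eval (fun i => (P i : ℚ)) (MvPolynomial.pderiv 1 GQ) = 0
      rw [← hHQ, ev_map, hP.2, Int.cast_zero]
  -- the primes
  obtain ⟨B₀, hB₀⟩ : ∃ B₀ : ℕ, B₀ = ⌈(K : ℝ) * x⌉₊ := ⟨_, rfl⟩
  have hKx : (K : ℝ) * x ≤ B₀ := by rw [hB₀]; exact Nat.le_ceil _
  have hKx' : (B₀ : ℝ) ≤ (K + 1) * x := by
    have h3 := (Nat.ceil_lt_add_one (show 0 ≤ (K : ℝ) * x by positivity)).le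
    rw [← hB₀] at h3
    nlinarith
  have hKB : K ≤ B₀ := by
    have h3 : (K : ℝ) ≤ B₀ := le_trans (le_mul_of_one_le_right (Nat.cast_nonneg _) hx1) hKx
    exact_mod_cast h3
  have hNB : N ≤ B₀ ^ 2 := by
    have h3 : x ≤ B₀ := le_trans (le_mul_of_one_le_left (by linarith) (by
      rw [hK]; push_cast; linarith [Nat.cast_nonneg (α := ℝ) C₁, Nat.cast_nonneg (α := ℝ) F])) hKx
    have h4 : (N : ℝ) ≤ x ^ 2 := by
      rw [hx, ← Real.rpow_natCast, ← Real.rpow_mul (by positivity)]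
      conv_lhs => rw [← Real.rpow_one (N : ℝ)]
      refine Real.rpow_le_rpow_of_exponent_le hN' ?_
      push_cast
      linarith
    have h5 : (N : ℝ) ≤ (B₀ : ℝ) ^ 2 := le_trans h4 (pow_le_pow_left₀ (by linarith) h3 2)
    exact_mod_cast h5
  obtain ⟨s, hs, hsl⟩ := hPrm h B₀ (by omega)
  have hval : ∀ P : Fin 2 → ℤ, (∀ i, |P i| ≤ N) →
      |MvPolynomial.eval P H| ≤ C₁ * (N : ℤ) ^ c₁ := by
    intro P hP
    have h3 := evb H d N (B₂ * (N : ℤ) ^ B₂ * d) (by
      rw [hH]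
      have := deg_pd G' (by rw [hdeg']; omega)
      omega) hN (fun m => by
        rw [hH]
        exact coeff_pd G' d _ (by rw [hdeg']; exact hd) hco m) P hP
    refine le_trans h3 (le_of_eq ?_)
    rw [hC₁, hc₁, pow_add]
    push_cast
    ring
  have hsub : T ⊆ T₀ ∪ ⋃ l ∈ s, {P : Fin 2 → ℤ | (∀ i, |P i| ≤ N) ∧
      MvPolynomial.eval P G' = 0 ∧ ¬ (l : ℤ) ∣ MvPolynomial.eval P (MvPolynomial.pderiv 1 G')} := by
    intro P hP
    rw [hT] at hP
    have hP2 := (hev P).1 hP.2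
    by_cases h0 : MvPolynomial.eval P H = 0
    · left
      rw [hT₀]
      exact ⟨hP2, h0⟩
    · right
      obtain ⟨l, hl, hnd⟩ := ex_prime s h C₁ N c₁ B₀ hh hs
        (fun l hl => ⟨(hsl l hl).1, (hsl l hl).2.1⟩) (by omega) hNB hN _ h0 (hval P hP.1)
      rw [Set.mem_iUnion₂]
      exact ⟨l, hl, hP.1, hP2, by rw [← hH]; exact hnd⟩
  have hTl : ∀ l ∈ s, {P : Fin 2 → ℤ | (∀ i, |P i| ≤ N) ∧
      MvPolynomial.eval P G' = 0 ∧
      ¬ (l : ℤ) ∣ MvPolynomial.eval P (MvPolynomial.pderiv 1 G')}.encard ≤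
      (d * (2 ^ h * B₀) * B₁ : ℕ) := by
    intro l hl
    obtain ⟨hlp, hl1, hl2⟩ := hsl l hl
    have : Fact l.Prime := ⟨hlp⟩
    have h3 := hB₁ G.totalDegree N l G' (by omega) (by omega) (by rw [← hGQ]; exact hirr)
      (by rw [← hGQ]; exact hdeg) (by
        obtain ⟨h4, h5⟩ := hD G.totalDegree h2 hd
        exact num _ _ _ F K N l B₀ ε (hF _ hd) (by omega) (by omega) hN h5 h4
          (by rw [← hx]; exact hKx) hl1)
    refine le_trans h3 ?_
    exact_mod_cast Nat.mul_le_mul_right _ (Nat.mul_le_mul hd hl2)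
  have htot : T.encard ≤ ((B₃ + h * (d * (2 ^ h * B₀) * B₁) : ℕ) : ℕ∞) := by
    refine le_trans (Set.encard_le_encard hsub) (le_trans (Set.encard_union_le _ _) ?_)
    rw [Nat.cast_add]
    refine add_le_add hT₀c (le_trans (s.set_encard_biUnion_le _) ?_)
    refine le_trans (Finset.sum_le_sum hTl) ?_
    rw [Finset.sum_const, hs, nsmul_eq_mul, ← Nat.cast_mul]
  have h3 := hfin _ htot
  have h4 : (T.ncard : ℝ) ≤ B₃ + h * (d * (2 ^ h * B₀) * B₁) := by exact_mod_cast h3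
  have h5 : (0 : ℝ) ≤ h * (d * 2 ^ h * B₁) := by positivity
  calc (T.ncard : ℝ) ≤ B₃ + h * (d * (2 ^ h * B₀) * B₁) := h4
    _ = B₃ + h * (d * 2 ^ h * B₁) * B₀ := by ring
    _ ≤ B₃ + h * (d * 2 ^ h * B₁) * ((K + 1) * x) := by
        have := mul_le_mul_of_nonneg_left hKx' h5
        linarith
    _ ≤ (B₂ + B₃) * x + h * (d * 2 ^ h * B₁) * ((K + 1) * x) := by
        have h6 : (B₃ : ℝ) ≤ (B₂ + B₃) * x := by
          have h7 : (0 : ℝ) ≤ B₂ := Nat.cast_nonneg _
          have h8 : (0 : ℝ) ≤ B₃ := Nat.cast_nonneg _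
          nlinarith
        linarith
    _ = (B₂ + B₃ + h * (d * (2 ^ h) * B₁) * (K + 1)) * x := by ring

end Pool.Agent.LPW.H32
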